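import Pool.Agent.N594.NT.Stm

/-!
# Project NT, leaf MC: a partition with the smallest number of edges inside the parts
-/

set_option autoImplicit false

open Finset
open scoped Classical

namespace Pool.Agent.N286.NT.MC

open Pool.Agent.TH200.LP Pool.Agent.N594.NT

theorem Bx_eq {V κ : Type} [Fintype V] (G : V → V → Prop) (π : V → κ) :
    Bx G π = (∑ u : V, ∑ v : V, ind (π u = π v ∧ G u v)) / (Fintype.card V : ℝ) /
      (Fintype.card V : ℝ) := by
  unfold Bx av
  rw [← sum_div]

theorem main : Pool.Agent.N594.NT.S_MC := by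
  intro k V _ _ G hk hG hirr
  have : Nonempty (Fin k) := ⟨⟨0, hk⟩⟩
  obtain ⟨π, hπ⟩ := Finite.exists_min (fun π : V → Fin k => Bx G π)
  refine ⟨π, hπ, fun x j => ?_⟩
  have hn : (0 : ℝ) < (Fintype.card V : ℝ) := Nat.cast_pos.2 Fintype.card_pos
  have hmin : Bx G π ≤ Bx G (Function.update π x j) := hπ (Function.update π x j)
  rw [Bx_eq, Bx_eq, div_le_div_iff_of_pos_right hn, div_le_div_iff_of_pos_right hn] at hmin
  set D : V → V → ℝ := fun u v =>
    ind (Function.update π x j u = Function.update π x j v ∧ G u v) - ind (π u = π v ∧ G u v)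
    with hD
  have hsym : ∀ u v, D u v = D v u := by
    intro u v
    rw [hD]
    simp only
    rw [ind_congr (P := Function.update π x j u = Function.update π x j v ∧ G u v)
      (Q := Function.update π x j v = Function.update π x j u ∧ G v u)
      ⟨fun h => ⟨h.1.symm, hG _ _ h.2⟩, fun h => ⟨h.1.symm, hG _ _ h.2⟩⟩,
      ind_congr (P := π u = π v ∧ G u v) (Q := π v = π u ∧ G v u)
      ⟨fun h => ⟨h.1.symm, hG _ _ h.2⟩, fun h => ⟨h.1.symm, hG _ _ h.2⟩⟩]
  have hx : ∀ v, D x v = ind (π v = j ∧ G x v) - ind (π v = π x ∧ G x v) := by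
    intro v
    rw [hD]
    simp only
    by_cases hv : v = x
    · subst hv
      rw [ind_false (fun h => hirr _ h.2), ind_false (fun h => hirr _ h.2),
        ind_false (fun h => hirr _ h.2)]
    · rw [Function.update_self, Function.update_of_ne hv,
        ind_congr (P := j = π v ∧ G x v) (Q := π v = j ∧ G x v)
          ⟨fun h => ⟨h.1.symm, h.2⟩, fun h => ⟨h.1.symm, h.2⟩⟩,
        ind_congr (P := π x = π v ∧ G x v) (Q := π v = π x ∧ G x v)
          ⟨fun h => ⟨h.1.symm, h.2⟩, fun h => ⟨h.1.symm, h.2⟩⟩]
  have hxx : D x x = 0 := by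
    rw [hx, ind_false (fun h => hirr _ h.2), ind_false (fun h => hirr _ h.2), sub_zero]
  have hsplit : ∀ u v, D u v = (if u = x then D x v else 0) + (if v = x then D x u else 0) := by
    intro u v
    by_cases hu : u = x
    · subst hu
      rw [if_pos rfl]
      by_cases hv : v = u
      · subst hv
        rw [if_pos rfl, hxx, add_zero]
      · rw [if_neg hv, add_zero]
    · rw [if_neg hu, zero_add]
      by_cases hv : v = x
      · subst hv
        rw [if_pos rfl]
        exact hsym _ _
      · rw [if_neg hv, hD]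
        simp only
        rw [Function.update_of_ne hu, Function.update_of_ne hv, sub_self]
  have hsum : ∑ u, ∑ v, D u v = 2 * ∑ v, D x v := by
    have h1 : ∀ u, ∑ v, D u v = (if u = x then ∑ v, D x v else 0) + D x u := by
      intro u
      rw [sum_congr rfl fun v _ => hsplit u v, sum_add_distrib, sum_ite_eq' univ x,
        if_pos (mem_univ x)]
      by_cases hu : u = x
      · rw [if_pos hu]
        simp only [if_pos hu]
      · rw [if_neg hu]
        simp only [if_neg hu, sum_const_zero]
    rw [sum_congr rfl fun u _ => h1 u, sum_add_distrib, sum_ite_eq' univ x, if_pos (mem_univ x)]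
    ring
  have hsum2 : ∑ u, ∑ v, D u v =
      ∑ u, ∑ v, ind (Function.update π x j u = Function.update π x j v ∧ G u v) -
      ∑ u, ∑ v, ind (π u = π v ∧ G u v) := by
    rw [hD]
    simp only [sum_sub_distrib]
  have hsum3 : ∑ v, D x v = ∑ v, ind (π v = j ∧ G x v) - ∑ v, ind (π v = π x ∧ G x v) := by
    rw [sum_congr rfl fun v _ => hx v, sum_sub_distrib]
  unfold av
  rw [div_le_div_iff_of_pos_right hn]
  linarith

end Pool.Agent.N286.NT.MC
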